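import Pool.Agent.H55.CG.Targets

/-!
# The first good block, and no good block
-/

set_option autoImplicit false

namespace Pool.Agent.H33.CG

open MeasureTheory ProbabilityTheory Filter Topology Pool.Agent.H95 Pool.Agent.H95.Cop
  Pool.Agent.H55.CG

private theorem V_zero (K : PMF ℕ) (N : ℕ) (x : ℕ → ℝ) : V K N x 0 = W K N x := by
  have h : (shift 0 x : ℕ → ℝ) = x := by
    funext n
    rfl
  unfold V
  rw [h, Nat.sub_zero]

theorem pf_STZ (hTLM : T_TLM) : T_STZ := by
  intro K hK0 α c n0 hα hc hkk ℓ m N x hℓ hn0 hm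
  constructor
  · have h := ((hTLM K hK0 N N le_rfl).2.2 x 0 (Nat.zero_le _))
    rw [Nat.sub_zero, V_zero] at h
    exact h
  · intro j hj
    obtain ⟨B, hB⟩ : ∃ B, B = (2 * m + 2) * ℓ := ⟨_, rfl⟩
    rw [← hB] at hj ⊢
    have hB2 : 2 * ℓ ≤ B := by
      rw [hB]
      exact Nat.mul_le_mul_right ℓ (by omega)
    have hB3 : (j + 1) * B = j * B + B := by ring
    have hsub : Finset.Ico (j * B + ℓ) (j * B + 2 * ℓ) ⊆ Finset.Ico 0 N := by
      intro b hb
      rw [Finset.mem_Ico] at hb ⊢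
      omega
    have h1 := V_super K hK0 N x 0 (Nat.zero_le _)
    rw [V_zero] at h1
    refine le_trans ?_ h1
    refine le_trans ?_ (Finset.sum_le_sum_of_subset_of_nonneg hsub fun b _ _ =>
      mul_nonneg (mul_nonneg (kk_nonneg K _) (wt_pos x 0 b).le) (V_pos K N x b).le)
    unfold SS
    rw [Finset.mul_sum]
    refine Finset.sum_le_sum fun b hb => ?_
    rw [Finset.mem_Ico] at hb
    refine mul_le_mul_of_nonneg_right ?_ (V_pos K N x b).le
    rw [Nat.sub_zero]
    have hb1 : 1 ≤ b := by omega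
    have hb2 : b ≤ (j + 1) * B := by omega
    have hb0 : (0 : ℝ) < b := by exact_mod_cast hb1
    have h2 : c * (((j + 1) * B : ℕ) : ℝ) ^ (-(1 + α)) ≤ kk K b := by
      refine le_trans ?_ (hkk b (by omega))
      refine mul_le_mul_of_nonneg_left ?_ hc.le
      exact Real.rpow_le_rpow_of_nonpos hb0 (by exact_mod_cast hb2) (by linarith)
    have h3 : (1 : ℝ) / 2 ≤ wt x 0 b := by
      unfold wt
      have := Real.exp_pos (H x 0 b)
      linarith
    have h4 : 0 ≤ c * (((j + 1) * B : ℕ) : ℝ) ^ (-(1 + α)) :=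
      mul_nonneg hc.le (Real.rpow_nonneg (Nat.cast_nonneg _) _)
    calc c / 2 * (((j + 1) * B : ℕ) : ℝ) ^ (-(1 + α))
        = (c * (((j + 1) * B : ℕ) : ℝ) ^ (-(1 + α))) * (1 / 2) := by ring
      _ ≤ kk K b * wt x 0 b := mul_le_mul h2 h3 (by norm_num) (kk_nonneg K b)

end Pool.Agent.H33.CG
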